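import Pool.Agent.Helper30.LQ.St

/-!
# Project LQ (MP_d57c14_nt), module SMT: smooth numbers (Rankin)
-/

set_option autoImplicit false

noncomputable section

namespace Pool.Agent.Helper45.LQ

open Finset Pool.Agent.Helper30.LQ
open Pool.Agent.Helper15.AB (StMT)

/-- Upper bound in the first theorem of Mertens. -/
private theorem mertens_upper (n : ℕ) (hn : 1 ≤ n) :
    ∑ p ∈ n.primesLE, Real.log p / p ≤ Real.log n + Real.log 4 := by
  have h1 : ∑ p ∈ n.primesLE, ((n / p : ℕ) : ℝ) * Real.log p ≤ Real.log (n.factorial : ℕ) := by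
    rw [Real.log_nat_eq_sum_factorization, Finsupp.sum]
    have hsub : n.primesLE ⊆ (n.factorial).factorization.support := by
      intro p hp
      rw [Nat.mem_primesLE] at hp
      rw [Nat.support_factorization, Nat.mem_primeFactors]
      exact ⟨hp.2, hp.2.dvd_factorial.2 hp.1, Nat.factorial_ne_zero n⟩
    refine le_trans ?_ (Finset.sum_le_sum_of_subset_of_nonneg hsub
      (fun p _ _ => mul_nonneg (Nat.cast_nonneg _) (Real.log_natCast_nonneg p)))
    refine Finset.sum_le_sum fun p hp => ?_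
    rw [Nat.mem_primesLE] at hp
    refine mul_le_mul_of_nonneg_right ?_ (Real.log_natCast_nonneg p)
    have hfac := Nat.factorization_factorial hp.2 (n := n) (b := Nat.log p n + 1) (by omega)
    rw [hfac]
    have hlog : 1 ≤ Nat.log p n := Nat.log_pos hp.2.one_lt hp.1
    have : n / p ^ 1 ≤ ∑ i ∈ Ico 1 (Nat.log p n + 1), n / p ^ i :=
      Finset.single_le_sum (f := fun i => n / p ^ i) (fun i _ => Nat.zero_le _)
        (Finset.mem_Ico.2 ⟨le_rfl, by omega⟩)
    rw [pow_one] at this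
    exact_mod_cast this
  have h2 : Real.log (n.factorial : ℕ) ≤ n * Real.log n := by
    have : ((n.factorial : ℕ) : ℝ) ≤ (n : ℝ) ^ n := by exact_mod_cast Nat.factorial_le_pow n
    rw [← Real.log_pow]
    exact Real.log_le_log (by exact_mod_cast Nat.factorial_pos n) this
  have h3 : ∑ p ∈ n.primesLE, Real.log p ≤ Real.log 4 * n := by
    rw [← Chebyshev.theta_eq_sum_primesLE_log]
    exact Chebyshev.theta_le_log4_mul_x (by positivity)
  have h4 : (n : ℝ) * ∑ p ∈ n.primesLE, Real.log p / p ≤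
      ∑ p ∈ n.primesLE, ((n / p : ℕ) : ℝ) * Real.log p + ∑ p ∈ n.primesLE, Real.log p := by
    rw [Finset.mul_sum, ← Finset.sum_add_distrib]
    refine Finset.sum_le_sum fun p hp => ?_
    rw [Nat.mem_primesLE] at hp
    have hp0 : (0 : ℝ) < p := by exact_mod_cast hp.2.pos
    have hlog := Real.log_natCast_nonneg p
    have hdiv : (n : ℝ) / p ≤ ((n / p : ℕ) : ℝ) + 1 := by
      rw [div_le_iff₀ hp0]
      have h5 := Nat.div_add_mod n p
      have h6 := Nat.mod_lt n hp.2.pos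
      have h7 : n ≤ (n / p + 1) * p := by nlinarith
      exact_mod_cast h7
    calc (n : ℝ) * (Real.log p / p) = (n : ℝ) / p * Real.log p := by ring
      _ ≤ (((n / p : ℕ) : ℝ) + 1) * Real.log p := mul_le_mul_of_nonneg_right hdiv hlog
      _ = _ := by ring
  have hn0 : (0 : ℝ) < n := by exact_mod_cast hn
  have h5 : (n : ℝ) * ∑ p ∈ n.primesLE, Real.log p / p ≤ n * (Real.log n + Real.log 4) := by
    nlinarith
  exact le_of_mul_le_mul_left h5 hn0

/-- the completely multiplicative function `n^(-s)` -/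
private def fs (s : ℝ) : ℕ →* ℝ where
  toFun n := (n : ℝ) ^ (-s)
  map_one' := by simp
  map_mul' a b := by
    rw [Nat.cast_mul, Real.mul_rpow (Nat.cast_nonneg a) (Nat.cast_nonneg b)]

private theorem fs_apply (s : ℝ) (n : ℕ) : fs s n = (n : ℝ) ^ (-s) := rfl

private theorem sum_smooth_le (N : ℕ) (s : ℝ) (hs : 0 < s) (F : Finset ℕ)
    (hF : ∀ m ∈ F, m ∈ (N + 1).smoothNumbers) :
    ∑ d ∈ F, (d : ℝ) ^ (-s) ≤ ∏ p ∈ (N + 1).primesBelow, (1 - (p : ℝ) ^ (-s))⁻¹ := by
  have hp : ∀ {p : ℕ}, p.Prime → ‖fs s p‖ < 1 := by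
    intro p hp
    rw [fs_apply, Real.norm_of_nonneg (by positivity)]
    exact Real.rpow_lt_one_of_one_lt_of_neg (by exact_mod_cast hp.one_lt) (by linarith)
  have h := (EulerProduct.summable_and_hasSum_smoothNumbers_prod_primesBelow_geometric
    (f := fs s) hp (N + 1)).2
  have h2 : HasSum (Set.indicator ((N + 1).smoothNumbers) (fun m : ℕ => (m : ℝ) ^ (-s)))
      (∏ p ∈ (N + 1).primesBelow, (1 - (p : ℝ) ^ (-s))⁻¹) :=
    (hasSum_subtype_iff_indicator (f := fun m : ℕ => (m : ℝ) ^ (-s))).1 h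
  have h3 := sum_le_hasSum F (fun i _ => by
    by_cases hi : i ∈ (N + 1).smoothNumbers
    · rw [Set.indicator_of_mem hi]
      positivity
    · rw [Set.indicator_of_notMem hi]) h2
  refine le_trans (le_of_eq ?_) h3
  apply Finset.sum_congr rfl
  intro d hd
  rw [Set.indicator_of_mem (hF d hd)]

private theorem inv_one_sub_le (x : ℝ) (_hx0 : 0 ≤ x) (hx : x ≤ 3 / 4) :
    (1 - x)⁻¹ ≤ Real.exp (x + 4 * x ^ 2) := by
  have h1 : 0 < 1 - x := by linarith
  have h2 : (1 - x)⁻¹ = x / (1 - x) + 1 := by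
    field_simp
    ring
  have h3 : x / (1 - x) ≤ x + 4 * x ^ 2 := by
    rw [div_le_iff₀ h1]
    nlinarith [mul_nonneg (sq_nonneg x) (by linarith : (0 : ℝ) ≤ 3 / 4 - x)]
  rw [h2]
  exact (Real.add_one_le_exp _).trans (Real.exp_le_exp.2 h3)

/-- `e ^ u ≤ 1 + u e ^ u` -/
private theorem exp_le_lin (u : ℝ) : Real.exp u ≤ 1 + u * Real.exp u := by
  have h2 : 1 - u ≤ Real.exp (-u) := by
    have := Real.add_one_le_exp (-u)
    linarith
  have h3 : Real.exp u * Real.exp (-u) = 1 := by rw [← Real.exp_add]; simp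
  have h4 : 0 < Real.exp u := Real.exp_pos u
  have h5 : Real.exp u * (1 - u) ≤ 1 := by
    calc Real.exp u * (1 - u) ≤ Real.exp u * Real.exp (-u) := by
          apply mul_le_mul_of_nonneg_left h2 h4.le
      _ = 1 := h3
  linarith

private theorem primesBelow_eq (N : ℕ) : (N + 1).primesBelow = (Icc 1 N).filter Nat.Prime := by
  ext p
  rw [Nat.mem_primesBelow, mem_filter, mem_Icc]
  constructor
  · rintro ⟨h1, h2⟩
    exact ⟨⟨h2.pos, by omega⟩, h2⟩
  · rintro ⟨h1, h2⟩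
    exact ⟨by omega, h2⟩

private theorem log_ge_one {z : ℝ} (hz : 3 ≤ z) : 1 ≤ Real.log z := by
  rw [Real.le_log_iff_exp_le (by linarith)]
  have := Real.exp_one_lt_d9
  linarith

private theorem prod_le (K CM : ℝ) (hK : ∀ T : Finset ℕ, ∑ n ∈ T, (n : ℝ) ^ (-(3 / 2 : ℝ)) ≤ K)
    (hM : ∀ y : ℝ, 3 ≤ y →
      |∑ l ∈ (Icc 1 ⌊y⌋₊).filter Nat.Prime, (1 : ℝ) / l - Real.log (Real.log y)| ≤ CM)
    (z w : ℝ) (hz : 3 ≤ z) (hw : 1 ≤ w) (hwz : Real.log w ≤ 1 / 4 * Real.log z) :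
    ∏ p ∈ (⌊z⌋₊ + 1).primesBelow, (1 - (p : ℝ) ^ (-(1 - Real.log w / Real.log z)))⁻¹ ≤
      Real.exp (CM + 4 * K) * Real.log z * Real.exp (8 * w * Real.log w) := by
  have hlz : 1 ≤ Real.log z := log_ge_one hz
  have hlz0 : 0 < Real.log z := by linarith
  have hlw : 0 ≤ Real.log w := Real.log_nonneg hw
  have hw0 : 0 < w := by linarith
  set η : ℝ := Real.log w / Real.log z with hη
  have hη0 : 0 ≤ η := by rw [hη]; positivity
  have hη1 : η ≤ 1 / 4 := by
    rw [hη, div_le_iff₀ hlz0]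
    exact hwz
  have hηz : η * Real.log z = Real.log w := by
    rw [hη]
    field_simp
  have hz0 : 0 ≤ z := by linarith
  have hx34 : ∀ p : ℕ, p.Prime → (p : ℝ) ^ (-(1 - η)) ≤ 3 / 4 := by
    intro p hp
    have hp2 : (2 : ℝ) ≤ p := by exact_mod_cast hp.two_le
    calc (p : ℝ) ^ (-(1 - η)) ≤ (2 : ℝ) ^ (-(1 - η)) :=
          Real.rpow_le_rpow_of_nonpos (by norm_num) hp2 (by linarith)
      _ ≤ (2 : ℝ) ^ (-(1 / 2 : ℝ)) := by
          apply Real.rpow_le_rpow_of_exponent_le (by norm_num)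
          linarith
      _ ≤ 3 / 4 := by
          rw [Real.rpow_neg (by norm_num), ← Real.sqrt_eq_rpow]
          rw [inv_le_comm₀ (by positivity) (by norm_num)]
          apply Real.le_sqrt_of_sq_le
          norm_num
  have hx0 : ∀ p : ℕ, 0 ≤ (p : ℝ) ^ (-(1 - η)) := fun p => by positivity
  have h1 : ∏ p ∈ (⌊z⌋₊ + 1).primesBelow, (1 - (p : ℝ) ^ (-(1 - η)))⁻¹ ≤
      ∏ p ∈ (⌊z⌋₊ + 1).primesBelow, Real.exp ((p : ℝ) ^ (-(1 - η)) + 4 * ((p : ℝ) ^ (-(1 - η))) ^ 2) := by
    apply Finset.prod_le_prod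
    · intro p hp
      have := hx34 p (Nat.prime_of_mem_primesBelow hp)
      apply inv_nonneg.2
      linarith
    · intro p hp
      exact inv_one_sub_le _ (hx0 p) (hx34 p (Nat.prime_of_mem_primesBelow hp))
  refine h1.trans ?_
  rw [← Real.exp_sum, Finset.sum_add_distrib, ← Finset.mul_sum]
  have h2 : ∑ p ∈ (⌊z⌋₊ + 1).primesBelow, ((p : ℝ) ^ (-(1 - η))) ^ 2 ≤ K := by
    refine le_trans (Finset.sum_le_sum fun p hp => ?_) (hK (⌊z⌋₊ + 1).primesBelow)
    have hp1 : (1 : ℝ) ≤ p := by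
      exact_mod_cast (Nat.prime_of_mem_primesBelow hp).one_lt.le
    rw [← Real.rpow_natCast, ← Real.rpow_mul (by linarith)]
    apply Real.rpow_le_rpow_of_exponent_le hp1
    push_cast
    linarith
  have h3 : ∑ p ∈ (⌊z⌋₊ + 1).primesBelow, (p : ℝ) ^ (-(1 - η)) ≤
      Real.log (Real.log z) + CM + 8 * w * Real.log w := by
    have h4 : ∀ p ∈ (⌊z⌋₊ + 1).primesBelow, (p : ℝ) ^ (-(1 - η)) ≤
        1 / (p : ℝ) + η * w * (Real.log p / p) := by
      intro p hp
      have hpp := Nat.prime_of_mem_primesBelow hp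
      have hpZ : p ≤ ⌊z⌋₊ := by
        have := Nat.lt_of_mem_primesBelow hp
        omega
      have hpz : (p : ℝ) ≤ z := by
        have h5 : ((⌊z⌋₊ : ℕ) : ℝ) ≤ z := Nat.floor_le hz0
        have h6 : (p : ℝ) ≤ (⌊z⌋₊ : ℕ) := by exact_mod_cast hpZ
        linarith
      have hp0 : (0 : ℝ) < p := by exact_mod_cast hpp.pos
      have hlp : 0 ≤ Real.log p := Real.log_nonneg (by exact_mod_cast hpp.one_lt.le)
      have hlpZ : Real.log p ≤ Real.log z := Real.log_le_log hp0 hpz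
      have e1 : (p : ℝ) ^ (-(1 - η)) = (1 / p) * Real.exp (η * Real.log p) := by
        rw [show -(1 - η) = (-1) + η by ring, Real.rpow_add hp0, Real.rpow_neg_one, one_div,
          Real.rpow_def_of_pos hp0, mul_comm (Real.log p)]
      have e2 := exp_le_lin (η * Real.log p)
      have e3 : Real.exp (η * Real.log p) ≤ w := by
        calc Real.exp (η * Real.log p) ≤ Real.exp (η * Real.log z) :=
              Real.exp_le_exp.2 (mul_le_mul_of_nonneg_left hlpZ hη0)
          _ = w := by rw [hηz, Real.exp_log hw0]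
      have e4 : η * Real.log p * Real.exp (η * Real.log p) ≤ η * Real.log p * w :=
        mul_le_mul_of_nonneg_left e3 (by positivity)
      rw [e1]
      calc (1 / (p : ℝ)) * Real.exp (η * Real.log p) ≤ (1 / p) * (1 + η * Real.log p * w) :=
            mul_le_mul_of_nonneg_left (by linarith) (by positivity)
        _ = _ := by ring
    have h5 := Finset.sum_le_sum h4
    rw [Finset.sum_add_distrib, ← Finset.mul_sum] at h5
    have h6 : ∑ p ∈ (⌊z⌋₊ + 1).primesBelow, 1 / (p : ℝ) ≤ Real.log (Real.log z) + CM := by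
      have h7 := (abs_le.1 (hM z hz)).2
      rw [primesBelow_eq]
      linarith
    have hfl : 1 ≤ ⌊z⌋₊ := by
      rw [Nat.one_le_floor_iff]
      linarith
    have h7 := mertens_upper ⌊z⌋₊ hfl
    have hfl0 : (0 : ℝ) < (⌊z⌋₊ : ℕ) := by exact_mod_cast hfl
    have h8 : Real.log ((⌊z⌋₊ : ℕ) : ℝ) ≤ Real.log z := Real.log_le_log hfl0 (Nat.floor_le hz0)
    have hl4 : Real.log 4 ≤ 2 := by
      have : Real.log 4 = 2 * Real.log 2 := by
        rw [show (4 : ℝ) = 2 ^ 2 by norm_num, Real.log_pow]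
        norm_num
      have := Real.log_two_lt_d9
      linarith
    have h9 : ∑ p ∈ (⌊z⌋₊ + 1).primesBelow, Real.log p / p ≤ 3 * Real.log z := by
      have : (⌊z⌋₊ + 1).primesBelow = (⌊z⌋₊).primesLE := rfl
      rw [this]
      linarith
    have h10 : η * w * ∑ p ∈ (⌊z⌋₊ + 1).primesBelow, Real.log p / p ≤ 3 * w * Real.log w := by
      calc η * w * ∑ p ∈ (⌊z⌋₊ + 1).primesBelow, Real.log p / p ≤ η * w * (3 * Real.log z) :=
            mul_le_mul_of_nonneg_left h9 (by positivity)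
        _ = 3 * w * (η * Real.log z) := by ring
        _ = _ := by rw [hηz]
    have h11 : 0 ≤ w * Real.log w := by positivity
    linarith
  calc Real.exp (∑ p ∈ (⌊z⌋₊ + 1).primesBelow, (p : ℝ) ^ (-(1 - η)) +
        4 * ∑ p ∈ (⌊z⌋₊ + 1).primesBelow, ((p : ℝ) ^ (-(1 - η))) ^ 2)
      ≤ Real.exp ((CM + 4 * K) + Real.log (Real.log z) + 8 * w * Real.log w) := by
        apply Real.exp_le_exp.2
        linarith
    _ = Real.exp (CM + 4 * K) * Real.log z * Real.exp (8 * w * Real.log w) := by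
        rw [Real.exp_add, Real.exp_add, Real.exp_log hlz0]

open Classical in
theorem hSMT (hM : StMT) : StSMT := by
  have hsum : Summable (fun n : ℕ => (n : ℝ) ^ (-(3 / 2 : ℝ))) :=
    Real.summable_nat_rpow.2 (by norm_num)
  set K : ℝ := ∑' n : ℕ, (n : ℝ) ^ (-(3 / 2 : ℝ)) with hKdef
  have hK : ∀ T : Finset ℕ, ∑ n ∈ T, (n : ℝ) ^ (-(3 / 2 : ℝ)) ≤ K := fun T =>
    hsum.sum_le_tsum T (fun i _ => by positivity)
  obtain ⟨CM, hCM, hM'⟩ := hM
  refine ⟨Real.exp (CM + 4 * K), Real.exp_pos _, 3, le_refl _, ?_⟩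
  intro z w hz hw hwz Y hY
  have hlz : 1 ≤ Real.log z := log_ge_one hz
  have hlz0 : 0 < Real.log z := by linarith
  have hz0 : 0 < z := by linarith
  have hw0 : 0 < w := by linarith
  have hlw : 0 ≤ Real.log w := Real.log_nonneg hw
  have hwz' : Real.log w ≤ 1 / 4 * Real.log z := by
    rw [← Real.log_rpow hz0]
    exact Real.log_le_log hw0 hwz
  set η : ℝ := Real.log w / Real.log z with hη
  have hη0 : 0 ≤ η := by rw [hη]; positivity
  have hη1 : η ≤ 1 / 4 := by
    rw [hη, div_le_iff₀ hlz0]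
    exact hwz'
  have hY0 : (0 : ℝ) < Y := by exact_mod_cast hY
  set F := (Icc 1 Y).filter (fun m => ∀ l : ℕ, l.Prime → l ∣ m → (l : ℝ) ≤ z) with hF
  have hFs : ∀ m ∈ F, m ∈ (⌊z⌋₊ + 1).smoothNumbers := by
    intro m hm
    rw [hF, mem_filter, mem_Icc] at hm
    rw [Nat.mem_smoothNumbers']
    intro p hp1 hp2
    have := hm.2 p hp1 hp2
    exact Nat.lt_succ_of_le (Nat.le_floor this)
  have h1 := sum_smooth_le ⌊z⌋₊ (1 - η) (by linarith) F hFs
  have h2 := prod_le K CM hK hM' z w hz hw hwz'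
  have h3 : (F.card : ℝ) ≤ (Y : ℝ) ^ (1 - η) * ∑ d ∈ F, (d : ℝ) ^ (-(1 - η)) := by
    rw [Finset.mul_sum, Finset.card_eq_sum_ones, Nat.cast_sum]
    apply Finset.sum_le_sum
    intro m hm
    rw [hF, mem_filter, mem_Icc] at hm
    have hm0 : (0 : ℝ) < m := by exact_mod_cast hm.1.1
    have hmY : (m : ℝ) ≤ Y := by exact_mod_cast hm.1.2
    rw [Real.rpow_neg hm0.le, ← div_eq_mul_inv, le_div_iff₀ (by positivity)]
    push_cast
    rw [one_mul]
    exact Real.rpow_le_rpow hm0.le hmY (by linarith)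
  have h4 : (Y : ℝ) ^ (1 - η) = Y * Real.exp (-(Real.log Y / Real.log z * Real.log w)) := by
    rw [Real.rpow_sub hY0, Real.rpow_one, div_eq_mul_inv, ← Real.rpow_neg hY0.le,
      Real.rpow_def_of_pos hY0]
    congr 2
    rw [hη]
    ring
  have h5 : (Y : ℝ) ^ (1 - η) * ∑ d ∈ F, (d : ℝ) ^ (-(1 - η)) ≤
      (Y : ℝ) ^ (1 - η) * (Real.exp (CM + 4 * K) * Real.log z * Real.exp (8 * w * Real.log w)) :=
    mul_le_mul_of_nonneg_left (h1.trans h2) (by positivity)
  have h6 : Real.exp (-((Real.log Y / Real.log z - 8 * w) * Real.log w)) =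
      Real.exp (-(Real.log Y / Real.log z * Real.log w)) * Real.exp (8 * w * Real.log w) := by
    rw [← Real.exp_add]
    congr 1
    ring
  calc (F.card : ℝ) ≤ (Y : ℝ) ^ (1 - η) * (Real.exp (CM + 4 * K) * Real.log z * Real.exp (8 * w * Real.log w)) :=
        h3.trans h5
    _ = Real.exp (CM + 4 * K) * Y * Real.log z *
        Real.exp (-((Real.log Y / Real.log z - 8 * w) * Real.log w)) := by
        rw [h4, h6]
        ring

end Pool.Agent.Helper45.LQ
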